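import Mathlib
import Pool.Agent.Y248.FB.Stm
set_option autoImplicit false

/-! # Project FB: from the energy bound to `L^2 → L^p(μ)` and `L^p → L^p(μ)` on balls -/

namespace Pool.Agent.Y515.FB

open MeasureTheory Set Metric Complex Filter
open scoped ENNReal RealInnerProductSpace Topology FourierTransform
open Pool.Agent.H789R2.FR (E sg T)
open Pool.Agent.H438R2.RZ (Bump)
open Pool.Agent.Y248.BA (mu Kr Tp gh gh_cont mu_bdd mu_far mu_cont mu_int Tp_eq four_eq four_bdd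
  gh_planch ball_vol loc_norm int_of_loc memLp_two Kr_crude)
open Pool.Agent.Y248.FB

theorem mu_neg {n : ℕ} (ψ : ℝ → ℝ) (A R : ℝ) (ξ : E n) : mu ψ A R (-ξ) = mu ψ A R ξ := by
  unfold mu; rw [norm_neg]

theorem mu_jm {n : ℕ} {ψ : ℝ → ℝ} (hψ : Bump ψ) (A : ℝ) {R : E n → ℝ} (hR : Measurable R) :
    Measurable fun z : E n × E n => mu ψ A (R z.1) z.2 := by
  have h1 : Measurable ψ := hψ.1.continuous.measurable
  have h2 : Measurable fun z : E n × E n => A * (1 - (R z.1 ^ 2)⁻¹ * ‖z.2‖ ^ 2) := by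
    have h3 : Measurable fun z : E n × E n => R z.1 := hR.comp measurable_fst
    have h4 : Measurable fun z : E n × E n => ‖z.2‖ := measurable_snd.norm
    exact ((h3.pow_const 2).inv.mul (h4.pow_const 2)).const_sub 1 |>.const_mul A
  exact Complex.measurable_ofReal.comp (h1.comp h2)

/-- the function being estimated -/
noncomputable def Ff {n : ℕ} (ψ : ℝ → ℝ) (A : ℝ) (R : E n → ℝ) (f : E n → ℂ) (x : E n) : ℂ :=
  Tp ψ A (R x) f x

/-- the integrand -/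
noncomputable def Gg {n : ℕ} (ψ : ℝ → ℝ) (A : ℝ) (R : E n → ℝ) (f : E n → ℂ) (z : E n × E n) : ℂ :=
  cexp (((-2 * Real.pi * ⟪z.2, z.1⟫ : ℝ) : ℂ) * I) * (mu ψ A (R z.1) z.2 * gh f z.2)

theorem Gg_meas {n : ℕ} {ψ : ℝ → ℝ} (hψ : Bump ψ) (A : ℝ) {R : E n → ℝ} (hR : Measurable R)
    {f : E n → ℂ} (hf : Integrable f) : Measurable (Gg ψ A R f) := by
  unfold Gg
  have h1 : Continuous fun z : E n × E n => cexp (((-2 * Real.pi * ⟪z.2, z.1⟫ : ℝ) : ℂ) * I) := by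
    fun_prop
  exact h1.measurable.mul ((mu_jm hψ A hR).mul ((gh_cont hf).measurable.comp measurable_snd))

theorem Ff_eq {n : ℕ} {ψ : ℝ → ℝ} (hψ : Bump ψ) {A : ℝ} (hA : 0 < A) {R : E n → ℝ} (hR : Radii R)
    {f : E n → ℂ} (hf : Integrable f) (x : E n) : Ff ψ A R f x = ∫ ξ, Gg ψ A R f (x, ξ) := by
  unfold Ff
  rw [Tp_eq hψ hA (by linarith [(hR.2 x).1]) (hR.2 x).2 hf, four_eq]
  rfl

theorem Ff_meas {n : ℕ} {ψ : ℝ → ℝ} (hψ : Bump ψ) {A : ℝ} (hA : 0 < A) {R : E n → ℝ} (hR : Radii R)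
    {f : E n → ℂ} (hf : Integrable f) : Measurable (Ff ψ A R f) := by
  have e : Ff ψ A R f = fun x => ∫ ξ, Gg ψ A R f (x, ξ) := by
    funext x; exact Ff_eq hψ hA hR hf x
  rw [e]
  exact ((Gg_meas hψ A hR.1 hf).stronglyMeasurable.integral_prod_right'
    (ν := (volume : Measure (E n)))).measurable

theorem Gg_bdd {n : ℕ} {ψ : ℝ → ℝ} (hψ : Bump ψ) {A : ℝ} (hA : 0 < A) {R : E n → ℝ} (hR : Radii R)
    {f : E n → ℂ} : ∃ M : ℝ, 0 ≤ M ∧ ∀ z : E n × E n,
      ‖Gg ψ A R f z‖ ≤ (closedBall (0 : E n) 2).indicator (fun _ => M) z.2 := by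
  obtain ⟨M, hM, hMb⟩ := mu_bdd hψ
  have h0 : 0 ≤ ∫ x, ‖f x‖ := integral_nonneg fun x => norm_nonneg _
  refine ⟨M * ∫ x, ‖f x‖, by positivity, fun z => ?_⟩
  unfold Gg
  rw [norm_mul, norm_mul, Complex.norm_exp_ofReal_mul_I, one_mul]
  by_cases hz : z.2 ∈ closedBall (0 : E n) 2
  · rw [indicator_of_mem hz]
    have h1 : ‖gh f z.2‖ ≤ ∫ x, ‖f x‖ := four_bdd f _
    exact mul_le_mul (hMb n A _ _) h1 (norm_nonneg _) hM.le
  · rw [indicator_of_notMem hz]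
    rw [mem_closedBall_zero_iff] at hz
    push Not at hz
    rw [mu_far hψ hA (by linarith [(hR.2 z.1).1]) z.2 (by linarith [(hR.2 z.1).2])]
    simp

theorem ind_int {n : ℕ} (M : ℝ) :
    Integrable ((closedBall (0 : E n) 2).indicator (fun _ => M)) (volume : Measure (E n)) := by
  rw [integrable_indicator_iff isClosed_closedBall.measurableSet]
  exact integrableOn_const measure_closedBall_lt_top.ne

theorem Ff_bdd {n : ℕ} {ψ : ℝ → ℝ} (hψ : Bump ψ) {A : ℝ} (hA : 0 < A) {R : E n → ℝ} (hR : Radii R)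
    {f : E n → ℂ} (hf : Integrable f) : ∃ M : ℝ, 0 ≤ M ∧ ∀ x, ‖Ff ψ A R f x‖ ≤ M := by
  obtain ⟨M, hM, hb⟩ := Gg_bdd (f := f) hψ hA hR
  refine ⟨∫ ξ : E n, (closedBall (0 : E n) 2).indicator (fun _ => M) ξ,
    integral_nonneg fun ξ => indicator_nonneg (fun _ _ => hM) _, fun x => ?_⟩
  rw [Ff_eq hψ hA hR hf]
  exact norm_integral_le_of_norm_le (ind_int M) (Eventually.of_forall fun ξ => hb (x, ξ))

/-- duality between the pieces and `Hd` -/
theorem pair {n : ℕ} {ψ : ℝ → ℝ} (hψ : Bump ψ) {A : ℝ} (hA : 0 < A) {R : E n → ℝ} (hR : Radii R)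
    (ν : Measure (E n)) [IsFiniteMeasure ν] {f g : E n → ℂ} (hf : Integrable f)
    (hg : Measurable g) {M : ℝ} (hgb : ∀ x, ‖g x‖ ≤ M) :
    ∫ x, Ff ψ A R f x * g x ∂ν = ∫ ξ, gh f ξ * Hd ψ A R g ν (-ξ) := by
  obtain ⟨K, hK, hKb⟩ := Gg_bdd (f := f) hψ hA hR
  have hprod : Integrable (fun z : E n × E n => Gg ψ A R f z * g z.1)
      (ν.prod (volume : Measure (E n))) := by
    refine ((ind_int (n := n) (K * M)).comp_snd ν).mono' ?_ (Eventually.of_forall fun z => ?_)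
    · exact ((Gg_meas hψ A hR.1 hf).mul (hg.comp measurable_fst)).aestronglyMeasurable
    · rw [norm_mul]
      have h1 := hKb z
      by_cases hz : z.2 ∈ closedBall (0 : E n) 2
      · rw [indicator_of_mem hz] at h1 ⊢
        exact mul_le_mul h1 (hgb _) (norm_nonneg _) hK
      · rw [indicator_of_notMem hz] at h1 ⊢
        have h2 : ‖Gg ψ A R f z‖ = 0 := le_antisymm h1 (norm_nonneg _)
        rw [h2, zero_mul]
  have e1 : ∀ x, Ff ψ A R f x * g x = ∫ ξ, Gg ψ A R f (x, ξ) * g x := by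
    intro x
    rw [Ff_eq hψ hA hR hf, integral_mul_const]
  simp only [e1]
  rw [integral_integral_swap hprod]
  refine integral_congr_ae (Eventually.of_forall fun ξ => ?_)
  simp only [Hd]
  rw [← integral_const_mul]
  refine integral_congr_ae (Eventually.of_forall fun x => ?_)
  simp only [Gg]
  rw [mu_neg, inner_neg_right, real_inner_comm x ξ]
  have : ((-2 * Real.pi * ⟪x, ξ⟫ : ℝ) : ℂ) = ((2 * Real.pi * -⟪x, ξ⟫ : ℝ) : ℂ) := by
    push_cast; ring
  rw [this]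
  ring

theorem Hd_meas {n : ℕ} {ψ : ℝ → ℝ} (hψ : Bump ψ) (A : ℝ) {R : E n → ℝ} (hR : Radii R)
    (ν : Measure (E n)) [IsFiniteMeasure ν] {g : E n → ℂ} (hg : Measurable g) :
    Measurable (Hd ψ A R g ν) := by
  have h : Measurable fun z : E n × E n => mu ψ A (R z.2) z.1 * g z.2 *
      cexp (((2 * Real.pi * ⟪z.2, z.1⟫ : ℝ) : ℂ) * I) := by
    have h1 : Continuous fun z : E n × E n => cexp (((2 * Real.pi * ⟪z.2, z.1⟫ : ℝ) : ℂ) * I) := by
      fun_prop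
    exact (((mu_jm hψ A hR.1).comp measurable_swap).mul (hg.comp measurable_snd)).mul h1.measurable
  exact (h.stronglyMeasurable.integral_prod_right' (ν := ν)).measurable

/-- the pairing is controlled by the `L^2` norms -/
theorem pair_le {n : ℕ} {ψ : ℝ → ℝ} (hψ : Bump ψ) {A : ℝ} (hA : 0 < A) {R : E n → ℝ}
    (hR : Radii R) (ν : Measure (E n)) [IsFiniteMeasure ν] {f g : E n → ℂ} (hf : Integrable f)
    (hf2 : MemLp f 2) (hg : Measurable g) {M : ℝ} (hgb : ∀ x, ‖g x‖ ≤ M) :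
    ‖∫ x, Ff ψ A R f x * g x ∂ν‖ₑ ≤ (∫⁻ x, ‖f x‖ₑ ^ (2 : ℝ)) ^ (1 / 2 : ℝ) *
      (∫⁻ ξ, ‖Hd ψ A R g ν ξ‖ₑ ^ (2 : ℝ)) ^ (1 / 2 : ℝ) := by
  rw [pair hψ hA hR ν hf hg hgb]
  refine (enorm_integral_le_lintegral_enorm _).trans ?_
  have hm := Hd_meas hψ A hR ν hg
  have h1 := ENNReal.lintegral_mul_le_Lp_mul_Lq (volume : Measure (E n))
    (p := 2) (q := 2) (by constructor <;> norm_num)
    (f := fun ξ => ‖gh f ξ‖ₑ) (g := fun ξ => ‖Hd ψ A R g ν (-ξ)‖ₑ)
    (gh_cont hf).measurable.enorm.aemeasurable (hm.comp measurable_neg).enorm.aemeasurable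
  rw [gh_planch hf hf2] at h1
  have h2 : ∫⁻ ξ, ‖Hd ψ A R g ν (-ξ)‖ₑ ^ (2 : ℝ) = ∫⁻ ξ, ‖Hd ψ A R g ν ξ‖ₑ ^ (2 : ℝ) :=
    lintegral_neg_eq_self (fun ξ => ‖Hd ψ A R g ν ξ‖ₑ ^ (2 : ℝ))
  rw [h2] at h1
  refine le_trans (le_of_eq ?_) h1
  refine lintegral_congr fun ξ => ?_
  rw [enorm_mul]; rfl

/-- the test function -/
noncomputable def gt {n : ℕ} (F : E n → ℂ) (B : Set (E n)) (p : ℝ) : E n → ℂ :=
  B.indicator fun x => (starRingEnd ℂ) (F x) * ((‖F x‖ ^ (p - 2) : ℝ) : ℂ)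

theorem mul_pow_two {a p : ℝ} (ha : 0 ≤ a) (hp : 2 ≤ p) : a * a ^ (p - 2) = a ^ (p - 1) := by
  rcases ha.eq_or_lt with h | h
  · rw [← h, zero_mul, Real.zero_rpow (by linarith)]
  · nth_rewrite 1 [← Real.rpow_one a]
    rw [← Real.rpow_add h]; congr 1; ring

theorem sq_mul_pow {a p : ℝ} (ha : 0 ≤ a) (hp : 2 ≤ p) : a ^ 2 * a ^ (p - 2) = a ^ p := by
  rcases ha.eq_or_lt with h | h
  · rw [← h, Real.zero_rpow (show p ≠ 0 by linarith)]; ring
  · rw [← Real.rpow_natCast a 2, ← Real.rpow_add h]; congr 1; push_cast; ring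

theorem gt_norm {n : ℕ} (F : E n → ℂ) (B : Set (E n)) {p : ℝ} (hp : 2 ≤ p) (x : E n) :
    ‖gt F B p x‖ = B.indicator (fun x => ‖F x‖ ^ (p - 1)) x := by
  unfold gt
  by_cases hx : x ∈ B
  · rw [indicator_of_mem hx, indicator_of_mem hx, norm_mul, RCLike.norm_conj, Complex.norm_real,
      Real.norm_of_nonneg (by positivity), mul_pow_two (norm_nonneg _) hp]
  · rw [indicator_of_notMem hx, indicator_of_notMem hx, norm_zero]

theorem gt_meas {n : ℕ} {F : E n → ℂ} (hF : Measurable F) {B : Set (E n)} (hB : MeasurableSet B)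
    (p : ℝ) : Measurable (gt F B p) := by
  refine Measurable.indicator ?_ hB
  exact (Complex.continuous_conj.measurable.comp hF).mul
    (Complex.measurable_ofReal.comp (hF.norm.pow_const _))

theorem absorb {J X : ℝ≥0∞} (hJ : J ≠ ∞) {p : ℝ} (hp : 1 ≤ p)
    (h : J ≤ X * J ^ ((p - 1) / p)) : J ≤ X ^ p := by
  have hp0 : 0 < p := by linarith
  rcases eq_or_ne J 0 with h0 | h0
  · rw [h0]; exact zero_le
  have e1 : J = J ^ (1 / p) * J ^ ((p - 1) / p) := by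
    rw [← ENNReal.rpow_add _ _ h0 hJ, ← add_div, show 1 + (p - 1) = p by ring, div_self hp0.ne',
      ENNReal.rpow_one]
  have h1 : J ^ (1 / p) * J ^ ((p - 1) / p) ≤ X * J ^ ((p - 1) / p) := by rw [← e1]; exact h
  have h3 : J ^ ((p - 1) / p) ≠ 0 := by
    intro h4
    rcases ENNReal.rpow_eq_zero_iff.1 h4 with h5 | h5
    · exact h0 h5.1
    · exact hJ h5.1
  have h2 : J ^ (1 / p) ≤ X := (ENNReal.mul_le_mul_iff_left h3
    (ENNReal.rpow_ne_top_of_nonneg (by apply div_nonneg <;> linarith) hJ)).1 h1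
  calc J = (J ^ (1 / p)) ^ p := by
        rw [← ENNReal.rpow_mul, one_div_mul_cancel hp0.ne', ENNReal.rpow_one]
    _ ≤ X ^ p := ENNReal.rpow_le_rpow h2 hp0.le

theorem t_l2p (n : ℕ) (_hn : 2 ≤ n) (h : S_EN n) : S_L2P n := by
  intro ψ hψ α p ε hα hp hε
  obtain ⟨C, hC, hE⟩ := h ψ hψ α p ε hα hp hε
  refine ⟨C, hC, fun μ hμ A hA R hR u ρ hρ f hfm hf hf2 => ?_⟩
  have hA0 : 0 < A := by linarith
  have hp0 : 0 < p := by linarith
  have hp1 : 0 < p - 1 := by linarith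
  have hρ0 : 0 < ρ := by linarith
  set B := closedBall u ρ with hB
  have hBm : MeasurableSet B := isClosed_closedBall.measurableSet
  have hBf : μ B < ∞ := (hμ u ρ hρ).trans_lt ENNReal.ofReal_lt_top
  have : IsFiniteMeasure (μ.restrict B) := ⟨by rw [Measure.restrict_apply_univ]; exact hBf⟩
  obtain ⟨K, hK, hKb⟩ := Ff_bdd hψ hA0 hR hf
  have hFm := Ff_meas hψ hA0 hR hf
  change ∫⁻ x in B, ‖Ff ψ A R f x‖ₑ ^ p ∂μ ≤ _
  set F := Ff ψ A R f with hF
  set g := gt F B p with hg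
  have hgm : Measurable g := gt_meas hFm hBm p
  have hgb : ∀ x, ‖g x‖ ≤ K ^ (p - 1) := by
    intro x
    rw [hg, gt_norm F B hp]
    by_cases hx : x ∈ B
    · rw [indicator_of_mem hx]
      exact Real.rpow_le_rpow (norm_nonneg _) (hKb x) hp1.le
    · rw [indicator_of_notMem hx]; positivity
  have hg0 : ∀ x, x ∉ B → g x = 0 := fun x hx => indicator_of_notMem hx _
  have h1 := hE μ hμ A hA R hR u ρ hρ g hgm ⟨_, hgb⟩ hg0
  have h2 : Hd ψ A R g (μ.restrict B) = Hd ψ A R g μ := by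
    funext ξ
    unfold Hd
    exact setIntegral_eq_integral_of_forall_compl_eq_zero fun x hx => by rw [hg0 x hx]; ring
  have h3 := pair_le hψ hA0 hR (μ.restrict B) hf hf2 hgm hgb
  rw [h2] at h3
  set J : ℝ≥0∞ := ∫⁻ x in B, ‖F x‖ₑ ^ p ∂μ with hJ
  have hen : ∀ x, ENNReal.ofReal (‖F x‖ ^ p) = ‖F x‖ₑ ^ p := by
    intro x
    rw [← ofReal_norm, ENNReal.ofReal_rpow_of_nonneg (norm_nonneg _) hp0.le]
  have hFi : Integrable (fun x => ‖F x‖ ^ p) (μ.restrict B) := by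
    refine Integrable.of_bound (C := K ^ p) (hFm.norm.pow_const _).aestronglyMeasurable
      (Eventually.of_forall fun x => ?_)
    rw [Real.norm_of_nonneg (by positivity)]
    exact Real.rpow_le_rpow (norm_nonneg _) (hKb x) hp0.le
  have hJe : ENNReal.ofReal (∫ x in B, ‖F x‖ ^ p ∂μ) = J := by
    rw [ofReal_integral_eq_lintegral_ofReal hFi (Eventually.of_forall fun x => by positivity)]
    exact lintegral_congr fun x => hen x
  have hJf : J ≠ ∞ := by rw [← hJe]; exact ENNReal.ofReal_ne_top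
  have h4 : ‖∫ x, F x * g x ∂(μ.restrict B)‖ₑ = J := by
    have e1 : ∫ x, F x * g x ∂(μ.restrict B) = ((∫ x in B, ‖F x‖ ^ p ∂μ : ℝ) : ℂ) := by
      rw [← integral_complex_ofReal]
      refine setIntegral_congr_fun hBm fun x hx => ?_
      simp only [hg, gt]
      rw [indicator_of_mem hx, ← mul_assoc, Complex.mul_conj, Complex.normSq_eq_norm_sq,
        ← Complex.ofReal_mul, sq_mul_pow (norm_nonneg _) hp]
    rw [e1, ← hJe, ← ofReal_norm, Complex.norm_real, Real.norm_of_nonneg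
      (integral_nonneg fun x => by positivity)]
  have h5 : ∫⁻ x, ‖g x‖ₑ ^ (p / (p - 1)) ∂μ = J := by
    rw [hJ, ← lintegral_indicator hBm]
    refine lintegral_congr fun x => ?_
    rw [← ofReal_norm, hg, gt_norm F B hp]
    by_cases hx : x ∈ B
    · rw [indicator_of_mem hx, indicator_of_mem hx,
        ENNReal.ofReal_rpow_of_nonneg (by positivity) (by positivity),
        ← Real.rpow_mul (norm_nonneg _), mul_div_cancel₀ _ hp1.ne', hen]
    · rw [indicator_of_notMem hx, indicator_of_notMem hx, ENNReal.ofReal_zero,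
        ENNReal.zero_rpow_of_pos (by positivity)]
  rw [h4] at h3
  rw [h5] at h1
  set N : ℝ≥0∞ := ∫⁻ x, ‖f x‖ₑ ^ (2 : ℝ) with hN
  set c : ℝ := C / A * ρ ^ (max (2 * α / p - kap n) 0 + ε) with hc
  have hc0 : 0 ≤ c := by positivity
  have h6 : J ≤ (N ^ (1 / 2 : ℝ) * ENNReal.ofReal c ^ (1 / 2 : ℝ)) * J ^ ((p - 1) / p) := by
    refine h3.trans ?_
    rw [mul_assoc]
    gcongr
    refine (ENNReal.rpow_le_rpow h1 (by norm_num)).trans (le_of_eq ?_)
    rw [ENNReal.mul_rpow_of_nonneg _ _ (by norm_num), ← ENNReal.rpow_mul]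
    congr 2
    field_simp
  refine (absorb hJf (by linarith) h6).trans (le_of_eq ?_)
  rw [ENNReal.mul_rpow_of_nonneg _ _ hp0.le, ← ENNReal.rpow_mul, ← ENNReal.rpow_mul,
    ← ENNReal.ofReal_rpow_of_nonneg hc0 (by positivity), mul_comm]
  congr 2 <;> ring

theorem near_cst {C V A ρ : ℝ} (hC : 0 < C) (hV : 0 < V) (hA : 0 < A) (hρ : 0 < ρ) (e p : ℝ)
    (n : ℕ) : (C / A * ρ ^ e) ^ (p / 2) * (V * (2 * ρ) ^ n) ^ (p / 2 - 1) =
      C ^ (p / 2) * (V * 2 ^ n) ^ (p / 2 - 1) * A ^ (-(p / 2)) *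
        ρ ^ (e * (p / 2) + n * (p / 2 - 1)) := by
  rw [Real.mul_rpow (by positivity) (by positivity), Real.div_rpow hC.le hA.le, mul_pow,
    ← mul_assoc V, Real.mul_rpow (by positivity) (by positivity), Real.rpow_neg hA.le,
    Real.rpow_add hρ, Real.rpow_mul hρ.le, Real.rpow_mul hρ.le (n : ℝ), Real.rpow_natCast]
  ring

theorem t_near (n : ℕ) (_hn : 2 ≤ n) (h : S_L2P n) : S_NEAR n := by
  intro ψ hψ α p ε hα hp hε
  obtain ⟨C, hC, hE⟩ := h ψ hψ α p ε hα hp hε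
  obtain ⟨V, hV, hVb⟩ := ball_vol n
  refine ⟨C ^ (p / 2) * (V * 2 ^ n) ^ (p / 2 - 1), by positivity,
    fun μ hμ A hA R hR u ρ hρ f hfm hfs hfp => ?_⟩
  have hA0 : 0 < A := by linarith
  have hp0 : 0 < p := by linarith
  have hρ0 : 0 < ρ := by linarith
  have hBm : MeasurableSet (closedBall u (2 * ρ)) := isClosed_closedBall.measurableSet
  have hfi := int_of_loc hfm hfs p (by linarith) hfp
  have hl2 := loc_norm hfm hBm hfs 2 p two_pos hp
  have h2p : 0 ≤ 1 - 2 / p := by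
    rw [sub_nonneg, div_le_one hp0]; exact hp
  have hl2f : ∫⁻ x, ‖f x‖ₑ ^ (2 : ℝ) ≠ ∞ := by
    refine (hl2.trans_lt ?_).ne
    exact ENNReal.mul_lt_top (ENNReal.rpow_lt_top_of_nonneg h2p measure_closedBall_lt_top.ne)
      (ENNReal.rpow_lt_top_of_nonneg (by positivity) hfp)
  have hf2 := memLp_two hfm hl2f
  have h1 := hE μ hμ A hA R hR u ρ hρ f hfm hfi hf2
  refine h1.trans ?_
  rw [hVb u (2 * ρ) (by positivity)] at hl2
  set e : ℝ := max (2 * α / p - kap n) 0 + ε with he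
  refine (mul_le_mul' le_rfl (ENNReal.rpow_le_rpow hl2 (show 0 ≤ p / 2 by positivity))).trans
    (le_of_eq ?_)
  rw [ENNReal.mul_rpow_of_nonneg _ _ (by positivity), ← ENNReal.rpow_mul, ← ENNReal.rpow_mul,
    show 2 / p * (p / 2) = 1 by field_simp, ENNReal.rpow_one,
    show (1 - 2 / p) * (p / 2) = p / 2 - 1 by field_simp,
    ENNReal.ofReal_rpow_of_nonneg (by positivity) (by linarith), ← mul_assoc,
    ← ENNReal.ofReal_mul (by positivity)]
  congr 2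
  exact near_cst hC hV hA0 hρ0 e p n

end Pool.Agent.Y515.FB
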